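import Pool.Agent.FLX.Stmts

/-!
# Taylor expansion at a critical point (MP_5f32e0_gt, squad FLX, row TAY)
-/

set_option autoImplicit false

open scoped InnerProductSpace Topology ContDiff Manifold
open MeasureTheory Filter Set

noncomputable section

namespace Pool.Agent.FLX.H65

open Pool.Agent.Helper42_Paneitz Pool.Agent.Helper82_Vir Pool.Agent.FLX

/-- the convex compact set around `p` -/
def KK (p : S4) : Set E5 := {y | 1 / 2 ≤ ⟪(p : E5), y⟫_ℝ} ∩ Metric.closedBall 0 1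

theorem convex_KK (p : S4) : Convex ℝ (KK p) := by
  refine Convex.inter ?_ (convex_closedBall _ _)
  have : Convex ℝ ((innerSL ℝ (p : E5)) ⁻¹' (Ici (1 / 2))) :=
    (convex_Ici (1 / 2 : ℝ)).is_linear_preimage (innerSL ℝ (p : E5)).isBoundedLinearMap.toIsLinearMap
  exact this

theorem compact_KK (p : S4) : IsCompact (KK p) := by
  refine (isCompact_closedBall (0 : E5) 1).inter_left ?_
  exact isClosed_le continuous_const (continuous_const.inner continuous_id)

theorem ne_zero_KK {p : S4} {y : E5} (hy : y ∈ KK p) : y ≠ 0 := by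
  intro h
  have h1 : (1 / 2 : ℝ) ≤ ⟪(p : E5), y⟫_ℝ := hy.1
  rw [h, inner_zero_right] at h1
  norm_num at h1

theorem tay : TayStmt := by
  intro Q p hQ hp
  obtain ⟨M, hM0, hM⟩ := exists_bound (continuous_of_sm hQ)
  -- the second derivative on `KK`
  have hc : ContinuousOn (fun y => ‖fderiv ℝ (fderiv ℝ (radialExt Q)) y‖) (KK p) := by
    intro y hy
    have h1 : ContDiffAt ℝ ∞ (fderiv ℝ (radialExt Q)) y :=
      (hQ y (ne_zero_KK hy)).fderiv_right (by simp)
    have h2 : ContDiffAt ℝ ∞ (fderiv ℝ (fderiv ℝ (radialExt Q))) y := h1.fderiv_right (by simp)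
    have h3 : ContinuousAt (fun y => ‖fderiv ℝ (fderiv ℝ (radialExt Q)) y‖) y :=
      ContinuousAt.norm (E := E5 →L[ℝ] E5 →L[ℝ] ℝ) h2.continuousAt
    exact h3.continuousWithinAt
  obtain ⟨B', hB'⟩ := (compact_KK p).exists_bound_of_continuousOn hc
  obtain ⟨B, hBdef⟩ : ∃ B, B = max B' 0 := ⟨_, rfl⟩
  have hB0 : 0 ≤ B := by rw [hBdef]; exact le_max_right _ _
  have hB : ∀ x ∈ KK p, ‖fderiv ℝ (fderiv ℝ (radialExt Q)) x‖ ≤ B := by
    intro x hx
    have h1 := hB' x hx
    rw [Real.norm_eq_abs] at h1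
    rw [hBdef]
    exact ((le_abs_self _).trans h1).trans (le_max_left _ _)
  have hpK : (p : E5) ∈ KK p := by
    refine ⟨?_, ?_⟩
    · show (1 / 2 : ℝ) ≤ ⟪(p : E5), (p : E5)⟫_ℝ
      rw [real_inner_self_eq_norm_sq, S4_norm]
      norm_num
    · rw [mem_closedBall_zero_iff, S4_norm]
  have hp0 : fderiv ℝ (radialExt Q) (p : E5) = 0 := by
    ext v
    exact hp v
  have hLip : ∀ y ∈ KK p, ‖fderiv ℝ (radialExt Q) y‖ ≤ B * ‖y - p‖ := by
    intro y hy
    have h1 := Convex.norm_image_sub_le_of_norm_fderiv_le (𝕜 := ℝ)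
      (f := fderiv ℝ (radialExt Q)) (C := B) (s := KK p) (x := (p : E5)) (y := y)
      (fun z hz => by
        have h1 : ContDiffAt ℝ ∞ (fderiv ℝ (radialExt Q)) z :=
          (hQ z (ne_zero_KK hz)).fderiv_right (by simp)
        exact h1.differentiableAt (by simp)) hB (convex_KK p) hpK hy
    rw [hp0, sub_zero] at h1
    exact h1
  refine ⟨4 * M + 2 * B, by positivity, fun z => ?_⟩
  have hs1 := inner_le_one p z
  rcases lt_or_ge ⟪(p : E5), (z : E5)⟫_ℝ (1 / 2) with hz | hz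
  · have h1 : |Q z - Q p| ≤ 2 * M := by
      refine (abs_sub _ _).trans ?_
      have := hM z; have := hM p; linarith
    have h2 : 2 * M ≤ 4 * M * (1 - ⟪(p : E5), (z : E5)⟫_ℝ) := by nlinarith
    have h3 : 0 ≤ 2 * B * (1 - ⟪(p : E5), (z : E5)⟫_ℝ) := by
      apply mul_nonneg (by positivity); linarith
    calc |Q z - Q p| ≤ 4 * M * (1 - ⟪(p : E5), (z : E5)⟫_ℝ) := h1.trans h2
      _ ≤ (4 * M + 2 * B) * (1 - ⟪(p : E5), (z : E5)⟫_ℝ) := by
        rw [add_mul]; linarith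
  · have hzK : (z : E5) ∈ KK p := by
      refine ⟨hz, ?_⟩
      rw [mem_closedBall_zero_iff, S4_norm]
    have hseg : segment ℝ (p : E5) (z : E5) ⊆ KK p := (convex_KK p).segment_subset hpK hzK
    have hd : ∀ y ∈ segment ℝ (p : E5) (z : E5), ‖fderiv ℝ (radialExt Q) y‖ ≤
        B * ‖(z : E5) - p‖ := by
      intro y hy
      refine (hLip y (hseg hy)).trans (mul_le_mul_of_nonneg_left ?_ hB0)
      exact norm_sub_le_of_mem_segment hy
    have h1 := Convex.norm_image_sub_le_of_norm_fderiv_le (𝕜 := ℝ)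
      (f := radialExt Q) (C := B * ‖(z : E5) - p‖) (s := segment ℝ (p : E5) (z : E5))
      (x := (p : E5)) (y := (z : E5))
      (fun y hy => sm_diffAt hQ (ne_zero_KK (hseg hy))) hd (convex_segment _ _)
      (left_mem_segment _ _ _) (right_mem_segment _ _ _)
    rw [radialExt_coe, radialExt_coe, Real.norm_eq_abs] at h1
    have h2 : ‖(z : E5) - p‖ * ‖(z : E5) - p‖ = 2 * (1 - ⟪(p : E5), (z : E5)⟫_ℝ) := by
      have h3 := dist_sq p z
      rw [Subtype.dist_eq, dist_eq_norm] at h3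
      rw [← h3]; ring
    have h3 : 0 ≤ 4 * M * (1 - ⟪(p : E5), (z : E5)⟫_ℝ) := by
      apply mul_nonneg (by positivity); linarith
    calc |Q z - Q p| ≤ B * ‖(z : E5) - p‖ * ‖(z : E5) - p‖ := h1
      _ = 2 * B * (1 - ⟪(p : E5), (z : E5)⟫_ℝ) := by rw [mul_assoc, h2]; ring
      _ ≤ (4 * M + 2 * B) * (1 - ⟪(p : E5), (z : E5)⟫_ℝ) := by
        rw [add_mul]; linarith

end Pool.Agent.FLX.H65
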