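import Pool.Agent.FLX.Stmts

/-!
# The zoom estimate (MP_5f32e0_gt, squad FLX, row ZOM)
-/

set_option autoImplicit false

open scoped InnerProductSpace Topology ContDiff Manifold
open MeasureTheory Filter Set

noncomputable section

namespace Pool.Agent.FLX.H65

open Pool.Agent.Helper42_Paneitz Pool.Agent.Helper82_Vir Pool.Agent.FLX

theorem eq_neg_of_inner (p x : S4) (h : ⟪(p : E5), (x : E5)⟫_ℝ = -1) : x = -p := by
  apply Subtype.ext
  have h1 : ‖(x : E5) + p‖ ^ 2 = 0 := by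
    rw [norm_add_sq_real, S4_norm, S4_norm, real_inner_comm, h]
    norm_num
  have h2 : (x : E5) + p = 0 := by
    rw [← norm_eq_zero]
    exact pow_eq_zero_iff (two_ne_zero) |>.1 h1
  have h3 : (x : E5) = -(p : E5) := eq_neg_of_add_eq_zero_left h2
  rw [h3]
  rfl

theorem zom (hT : TayStmt) (hP : PowStmt) (hM : MoaStmt) : ZomStmt := by
  intro Q p η hQ hp hη0 hη1
  obtain ⟨CT, hCT0, hCT⟩ := hT Q p hQ hp
  obtain ⟨CP, hCP0, hCP⟩ := hP (2 - 2 * η) (by linarith)
  obtain ⟨hPi, hPb⟩ := hCP (-p)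
  refine ⟨√(64 * CT ^ 2 * CP), Real.sqrt_nonneg _, fun s hs0 hs1 => ?_⟩
  have hb : ‖s • (p : E5)‖ < 1 := norm_smul_lt hs0 hs1 p
  obtain ⟨hMpos, -, -, -, hMin, -⟩ := hM (s • (p : E5)) hb
  have hnorm : ‖s • (p : E5)‖ ^ 2 = s ^ 2 := by
    rw [norm_smul, S4_norm, mul_one, Real.norm_eq_abs, sq_abs]
  -- the pointwise bound
  have hpt : ∀ x : S4, x ≠ -p → (Q (mob (s • (p : E5)) x) - Q p) ^ 2 ≤
      (64 * CT ^ 2 * (1 - s) ^ (2 - 2 * η)) *
        (1 - ⟪((-p : S4) : E5), (x : E5)⟫_ℝ) ^ (-(2 - 2 * η)) := by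
    intro x hx
    obtain ⟨u, hu⟩ : ∃ u, u = ⟪(p : E5), (mob (s • (p : E5)) x : E5)⟫_ℝ := ⟨_, rfl⟩
    obtain ⟨t, ht⟩ : ∃ t, t = ⟪(p : E5), (x : E5)⟫_ℝ := ⟨_, rfl⟩
    have h1 := hMin x
    rw [real_inner_smul_left, real_inner_smul_left, hnorm, ← hu, ← ht] at h1
    have h2 := hMpos x
    rw [real_inner_smul_left, ← ht] at h2
    have ht1 : t ≤ 1 := by rw [ht]; exact inner_le_one p x
    have htm : -1 ≤ t := by rw [ht]; exact neg_one_le_inner p x
    have htm' : -1 < t := by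
      rcases htm.eq_or_lt with h | h
      · exact absurd (eq_neg_of_inner p x (by rw [← ht, ← h])) hx
      · exact h
    have h3 : 1 - u = (1 - s) * (1 - t) / (1 + s * t) := by
      rw [eq_div_iff h2.ne']
      have : s * ((1 - u) * (1 + s * t)) = s * ((1 - s) * (1 - t)) := by
        linear_combination h1
      exact mul_left_cancel₀ hs0.ne' this
    have hDs : 1 - s ≤ 1 + s * t := by nlinarith
    have hD4 : (1 + t) / 4 ≤ 1 + s * t := by
      rcases le_total (1 / 4) s with h | h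
      · nlinarith
      · nlinarith
    obtain ⟨r, hr⟩ : ∃ r, r = (1 - s) / (1 + s * t) := ⟨_, rfl⟩
    have hr0 : 0 < r := by rw [hr]; exact div_pos (by linarith) h2
    have hr1 : r ≤ 1 := by rw [hr, div_le_one h2]; exact hDs
    have h4 : 1 - u ≤ 2 * r := by
      rw [h3, hr, mul_div_right_comm, mul_comm]
      exact mul_le_mul_of_nonneg_right (by linarith) (hr ▸ hr0.le)
    have hu1 : 0 ≤ 1 - u := by
      have := inner_le_one p (mob (s • (p : E5)) x)
      rw [← hu] at this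
      linarith
    have h5 : |Q (mob (s • (p : E5)) x) - Q p| ≤ CT * (2 * r) := by
      refine (hCT _).trans (mul_le_mul_of_nonneg_left ?_ hCT0)
      rw [← hu]
      exact h4
    have h6 : (Q (mob (s • (p : E5)) x) - Q p) ^ 2 ≤ (CT * (2 * r)) ^ 2 := by
      rw [← sq_abs]
      exact pow_le_pow_left₀ (abs_nonneg _) h5 2
    have h7 : r ^ 2 ≤ r ^ (2 - 2 * η) := by
      rw [← Real.rpow_natCast r 2]
      exact Real.rpow_le_rpow_of_exponent_ge hr0 hr1 (by push_cast; linarith)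
    have h8 : r ^ (2 - 2 * η) = (1 - s) ^ (2 - 2 * η) * (1 + s * t) ^ (-(2 - 2 * η)) := by
      rw [hr, Real.div_rpow (by linarith) h2.le, Real.rpow_neg h2.le, div_eq_mul_inv]
    have h9 : (1 + s * t) ^ (-(2 - 2 * η)) ≤ 16 * (1 + t) ^ (-(2 - 2 * η)) := by
      have h10 : (1 + s * t) ^ (-(2 - 2 * η)) ≤ ((1 + t) / 4) ^ (-(2 - 2 * η)) :=
        Real.rpow_le_rpow_of_nonpos (by linarith) hD4 (by linarith)
      refine h10.trans ?_
      rw [div_eq_mul_inv, Real.mul_rpow (by linarith) (by norm_num), mul_comm]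
      refine mul_le_mul_of_nonneg_right ?_ (Real.rpow_nonneg (by linarith) _)
      rw [Real.inv_rpow (by norm_num), Real.rpow_neg (by norm_num), inv_inv]
      calc (4 : ℝ) ^ (2 - 2 * η) ≤ (4 : ℝ) ^ (2 : ℝ) :=
            Real.rpow_le_rpow_of_exponent_le (by norm_num) (by linarith)
        _ = 16 := by
            rw [show (2 : ℝ) = ((2 : ℕ) : ℝ) by norm_num, Real.rpow_natCast]
            norm_num
    have h11 : (1 : ℝ) - ⟪((-p : S4) : E5), (x : E5)⟫_ℝ = 1 + t := by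
      have : ((-p : S4) : E5) = -(p : E5) := rfl
      rw [this, inner_neg_left, ← ht]
      ring
    rw [h11]
    calc (Q (mob (s • (p : E5)) x) - Q p) ^ 2 ≤ (CT * (2 * r)) ^ 2 := h6
      _ = 4 * CT ^ 2 * r ^ 2 := by ring
      _ ≤ 4 * CT ^ 2 * r ^ (2 - 2 * η) := mul_le_mul_of_nonneg_left h7 (by positivity)
      _ = 4 * CT ^ 2 * (1 - s) ^ (2 - 2 * η) * (1 + s * t) ^ (-(2 - 2 * η)) := by
          rw [h8]; ring
      _ ≤ 4 * CT ^ 2 * (1 - s) ^ (2 - 2 * η) * (16 * (1 + t) ^ (-(2 - 2 * η))) :=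
          mul_le_mul_of_nonneg_left h9 (mul_nonneg (by positivity)
            (Real.rpow_nonneg (by linarith) _))
      _ = _ := by ring
  have hint : ∫ x, (Q (mob (s • (p : E5)) x) - Q p) ^ 2 ∂sig ≤
      (64 * CT ^ 2 * (1 - s) ^ (2 - 2 * η)) * CP := by
    have h1 : ∫ x, (Q (mob (s • (p : E5)) x) - Q p) ^ 2 ∂sig ≤
        ∫ x : S4, (64 * CT ^ 2 * (1 - s) ^ (2 - 2 * η)) *
          (1 - ⟪((-p : S4) : E5), (x : E5)⟫_ℝ) ^ (-(2 - 2 * η)) ∂sig := by
      refine integral_mono_of_nonneg (Eventually.of_forall fun x => sq_nonneg _)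
        (hPi.const_mul _) ?_
      filter_upwards [ae_ne (-p)] with x hx
      exact hpt x hx
    rw [integral_const_mul] at h1
    refine h1.trans (mul_le_mul_of_nonneg_left hPb ?_)
    exact mul_nonneg (by positivity) (Real.rpow_nonneg (by linarith) _)
  unfold N2
  have h2 : √((64 * CT ^ 2 * (1 - s) ^ (2 - 2 * η)) * CP) =
      √(64 * CT ^ 2 * CP) * (1 - s) ^ (1 - η) := by
    have h3 : (64 * CT ^ 2 * (1 - s) ^ (2 - 2 * η)) * CP =
        (64 * CT ^ 2 * CP) * ((1 - s) ^ (1 - η)) ^ 2 := by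
      have h4 : (1 - s) ^ (2 - 2 * η) = ((1 - s) ^ (1 - η)) ^ 2 := by
        rw [← Real.rpow_natCast ((1 - s) ^ (1 - η)) 2, ← Real.rpow_mul (by linarith)]
        congr 1
        push_cast
        ring
      rw [h4]; ring
    rw [h3, Real.sqrt_mul (by positivity), Real.sqrt_sq (Real.rpow_nonneg (by linarith) _)]
  rw [← h2]
  exact Real.sqrt_le_sqrt hint

end Pool.Agent.FLX.H65
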